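import Pool.Agent.H336.GW.Main
import Pool.Agent.H336.GW.Path

/-!
# The smallest graceful tree containing a given tree: `γ(T) = |E(T)|` if the non-leaves form a tree
with an `α`-labelling and have even numbers of leaves

Let `T` be a tree each of whose non-leaves is adjacent to a positive even number of leaves (which may
be different for different vertices). If the tree of the non-leaves has an `α`-labelling and if its
two colour classes are not too different in size, then `T` is graceful, so `T` itself is the smallest
graceful tree containing `T`. This applies to all lobsters with these properties.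

The main theorem is in the starting library (`Pool.Agent.H336.GW`).
-/

set_option autoImplicit false

namespace Pool.Agent.Results.MP_128071_co.EvenLeaves

open Finset

/-- A graph with `m` edges is graceful if there is an injective map `f` of the vertices to
`{0, 1, …, m}` such that the edge labels `|f u - f v|` are pairwise distinct. -/
def Graceful {V : Type} (T : SimpleGraph V) : Prop :=
  ∃ f : V → ℕ, Function.Injective f ∧ (∀ v, f v ≤ T.edgeSet.ncard) ∧
    ∀ u v u' v', T.Adj u v → T.Adj u' v' →
      Int.natAbs ((f u : ℤ) - (f v : ℤ)) = Int.natAbs ((f u' : ℤ) - (f v' : ℤ)) →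
      s(u, v) = s(u', v')

/-- The numbers of edges of the finite graceful trees which have a subgraph isomorphic to `T`. -/
def gracefulSizes {V : Type} (T : SimpleGraph V) : Set ℕ :=
  {k | ∃ (W : Type) (_ : Fintype W) (T' : SimpleGraph W),
    T'.IsTree ∧ Graceful T' ∧ T.IsContained T' ∧ T'.edgeSet.ncard = k}

/-- `γ(T)`: the least number of edges of a graceful tree which has a subgraph isomorphic to `T`. -/
noncomputable def gamma {V : Type} (T : SimpleGraph V) : ℕ := sInf (gracefulSizes T)

/-- the vertices which are not leaves -/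
def inner {V : Type} (T : SimpleGraph V) : Set V := {x | 2 ≤ (T.neighborSet x).ncard}

/-- the tree of the non-leaves -/
def core {V : Type} (T : SimpleGraph V) : SimpleGraph (inner T) := T.induce (inner T)

/-- the number of the leaves adjacent to `x` -/
noncomputable def leaves {V : Type} (T : SimpleGraph V) (x : V) : ℕ :=
  {y | T.Adj x y ∧ y ∉ inner T}.ncard

/-- `G` has an `α`-labelling: a graceful labelling such that, for some number `θ`, exactly one end
of every edge has a label less than `θ`. -/
def AlphaLabelled {W : Type} (G : SimpleGraph W) : Prop :=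
  ∃ (θ : ℕ) (f : W → ℕ), Function.Injective f ∧ (∀ x, f x ≤ G.edgeSet.ncard) ∧
    (∀ u v u' v', G.Adj u v → G.Adj u' v' →
      Int.natAbs ((f u : ℤ) - (f v : ℤ)) = Int.natAbs ((f u' : ℤ) - (f v' : ℤ)) →
      s(u, v) = s(u', v')) ∧
    ∀ u v, G.Adj u v → (f u < θ ↔ ¬ f v < θ)

/-- `c` is a proper colouring of `T` with the two colours `true` and `false` -/
def Proper {V : Type} (T : SimpleGraph V) (c : V → Bool) : Prop := ∀ u v, T.Adj u v → c u ≠ c v

theorem le_of_mem {V : Type} {T : SimpleGraph V} {k : ℕ}
    (hk : k ∈ gracefulSizes T) : T.edgeSet.ncard ≤ k := by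
  classical
  obtain ⟨W, _, T', _, _, ⟨φ⟩, rfl⟩ := hk
  have hinj : Function.Injective φ := φ.injective
  have h1 : Sym2.map φ '' T.edgeSet ⊆ T'.edgeSet := by
    rintro _ ⟨e, he, rfl⟩
    induction e using Sym2.ind with
    | _ x y =>
      rw [Sym2.map_mk, SimpleGraph.mem_edgeSet]
      exact φ.toHom.map_adj ((SimpleGraph.mem_edgeSet T).1 he)
  calc T.edgeSet.ncard = (Sym2.map φ '' T.edgeSet).ncard :=
        (Set.ncard_image_of_injective _ (Sym2.map.injective hinj)).symm
    _ ≤ T'.edgeSet.ncard := Set.ncard_le_ncard h1 (Set.toFinite _)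

/-- two proper colourings of a connected graph are equal or opposite -/
theorem two_colourings {W : Type} {G : SimpleGraph W} (hG : G.Connected) (col : W → Bool)
    (b : Bool) (hc : ∀ u v, G.Adj u v → col u ≠ col v) (P : W → Prop)
    (hP : ∀ u v, G.Adj u v → (P u ↔ ¬ P v)) :
    (∀ x, col x = b ↔ P x) ∨ (∀ x, col x = b ↔ ¬ P x) := by
  have h1 : ∀ u v, G.Adj u v → ((col u = b ↔ P u) ↔ (col v = b ↔ P v)) := by
    intro u v h
    have h2 := hc u v h
    have h3 := hP u v h
    have h4 : col u = b ↔ ¬ col v = b := by
      revert h2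
      cases col u <;> cases col v <;> cases b <;> simp
    tauto
  have h2 : ∀ u v, G.Walk u v → ((col u = b ↔ P u) ↔ (col v = b ↔ P v)) := by
    intro u v w
    induction w with
    | nil => rfl
    | cons h _ ih => exact (h1 _ _ h).trans ih
  obtain ⟨x0⟩ := hG.nonempty
  by_cases h3 : (col x0 = b ↔ P x0)
  · left
    intro x
    obtain ⟨w⟩ := hG.preconnected x0 x
    exact (h2 _ _ w).1 h3
  · right
    intro x
    obtain ⟨w⟩ := hG.preconnected x0 x
    have := (h2 _ _ w).not.1 h3
    tauto

theorem alpha_both {W : Type} {G : SimpleGraph W} (hG : G.Connected) (hα : AlphaLabelled G)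
    (col : W → Bool) (b : Bool) (hcol : ∀ u v, G.Adj u v → col u ≠ col v) :
    ∃ (θ : ℕ) (f : W → ℕ), Function.Injective f ∧
      (∀ x, f x ≤ G.edgeSet.ncard) ∧ (∀ x, col x = b ↔ f x < θ) ∧
      ∀ u v u' v', G.Adj u v → G.Adj u' v' →
        Int.natAbs ((f u : ℤ) - (f v : ℤ)) = Int.natAbs ((f u' : ℤ) - (f v' : ℤ)) →
        s(u, v) = s(u', v') := by
  obtain ⟨θ, f, f1, f2, f3, f4⟩ := hα
  rcases two_colourings hG col b hcol (fun x => f x < θ) f4 with h | h
  · exact ⟨θ, f, f1, f2, h, f3⟩
  · refine ⟨G.edgeSet.ncard + 1 - θ, fun x => G.edgeSet.ncard - f x, ?_, ?_, ?_, ?_⟩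
    · intro x y hxy
      have hx := f2 x
      have hy := f2 y
      simp only at hxy
      exact f1 (by omega)
    · intro x
      exact Nat.sub_le _ _
    · intro x
      have hx := f2 x
      rw [h x]
      show ¬ f x < θ ↔ G.edgeSet.ncard - f x < G.edgeSet.ncard + 1 - θ
      omega
    · intro u v u' v' huv huv' he
      have h1 := f2 u
      have h2 := f2 v
      have h3 := f2 u'
      have h4 := f2 v'
      refine f3 u v u' v' huv huv' ?_
      simp only at he
      omega

/-- enough leaves if the classes of the non-leaves are almost equal -/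
theorem balanced_of {V : Type} [Fintype V] {T : SimpleGraph V}
    (h2 : ∀ x ∈ inner T, 0 < leaves T x ∧ Even (leaves T x)) {c : V → Bool} (hc : Proper T c)
    (b : Bool) (h : {x | x ∈ inner T ∧ c x = b}.ncard ≤
      {x | x ∈ inner T ∧ c x ≠ b}.ncard + 1) :
    2 * {x | x ∈ inner T ∧ c x = b}.ncard ≤ {y | y ∉ inner T ∧ c y = b}.ncard + 2 := by
  classical
  have key : {x | x ∈ inner T ∧ c x ≠ b}.ncard * 2 ≤
      {y | y ∉ inner T ∧ c y = b}.ncard * 1 := by
    rw [Set.ncard_eq_toFinset_card _ (Set.toFinite _),
      Set.ncard_eq_toFinset_card _ (Set.toFinite _)]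
    refine Finset.card_mul_le_card_mul T.Adj ?_ ?_
    · intro x hx
      simp only [Set.Finite.mem_toFinset, Set.mem_ofPred_eq] at hx
      have h3 := h2 x hx.1
      have h4 : 2 ≤ leaves T x := by
        obtain ⟨k, hk⟩ := h3.2
        omega
      refine h4.trans ?_
      unfold leaves
      rw [Set.ncard_eq_toFinset_card _ (Set.toFinite _)]
      refine Finset.card_le_card ?_
      intro y hy
      simp only [Set.Finite.mem_toFinset, Set.mem_ofPred_eq] at hy
      rw [Finset.mem_bipartiteAbove]
      refine ⟨?_, hy.1⟩
      simp only [Set.Finite.mem_toFinset, Set.mem_ofPred_eq]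
      refine ⟨hy.2, ?_⟩
      have h5 := hc x y hy.1
      have h6 := hx.2
      revert h5 h6
      cases c x <;> cases c y <;> cases b <;> simp
    · intro y hy
      simp only [Set.Finite.mem_toFinset, Set.mem_ofPred_eq] at hy
      have h3 : (T.neighborSet y).ncard ≤ 1 := by
        have h4 : ¬ 2 ≤ (T.neighborSet y).ncard := hy.1
        omega
      refine le_trans ?_ h3
      rw [Set.ncard_eq_toFinset_card _ (Set.toFinite _)]
      refine Finset.card_le_card ?_
      intro x hx
      rw [Finset.mem_bipartiteBelow] at hx
      simp only [Set.Finite.mem_toFinset]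
      exact hx.2.symm
  omega

/-- **Trees with even numbers of leaves at all their non-leaves.** Let `T` be a finite tree with at
least two non-leaves, each non-leaf of which is adjacent to a positive even number of leaves. Suppose
that the tree of the non-leaves has an `α`-labelling or is a caterpillar (its non-leaves form a
path), and that for both colours `b` of the proper colourings of `T` with two colours

* twice the number of the non-leaves of colour `b` is at most two plus the number of the leaves of
  colour `b`, or
* the number of the non-leaves of colour `b` is at most one plus the number of the non-leaves of the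
  other colour.

Then `T` is graceful and `γ(T) = |E(T)|`: `T` is a smallest graceful tree containing `T`. -/
theorem result (V : Type) [Fintype V] (T : SimpleGraph V) (hT : T.IsTree)
    (h1 : ∃ x y, T.Adj x y ∧ x ∈ inner T ∧ y ∈ inner T)
    (h2 : ∀ x ∈ inner T, 0 < leaves T x ∧ Even (leaves T x))
    (h3 : AlphaLabelled (core T) ∨ ∃ n, Nonempty (core (core T) ≃g SimpleGraph.pathGraph n))
    (h4 : ∀ c : V → Bool, Proper T c → ∀ b : Bool,
      2 * {x | x ∈ inner T ∧ c x = b}.ncard ≤ {y | y ∉ inner T ∧ c y = b}.ncard + 2 ∨
      {x | x ∈ inner T ∧ c x = b}.ncard ≤ {x | x ∈ inner T ∧ c x ≠ b}.ncard + 1) :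
    Graceful T ∧ T.edgeSet.ncard ∈ gracefulSizes T ∧ gamma T = T.edgeSet.ncard := by
  have hne : (inner T).Nonempty := by
    obtain ⟨x, y, -, hx, -⟩ := h1
    exact ⟨x, hx⟩
  have hG : (core T).IsTree := Pool.Agent.H336.GW.induce_tree hT hne
  have hg : Graceful T := by
    refine Pool.Agent.H336.GW.even_leaves hT h1 ?_ h2 ?_
    · intro col b hcol
      rcases h3 with h3 | ⟨n, ⟨e⟩⟩
      · exact alpha_both hG.1 h3 col b hcol
      · have hcard : 1 ≤ (core T).edgeSet.ncard := by
          obtain ⟨x, y, hxy, hx, hy⟩ := h1
          exact (Set.ncard_pos (Set.toFinite _)).2 ⟨s(⟨x, hx⟩, ⟨y, hy⟩), hxy⟩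
        have : Fintype (inner T) := Fintype.ofFinite _
        exact Pool.Agent.H336.GW.exists_alpha hG hcard n e col b hcol
    · intro c hc b
      rcases h4 c hc b with h | h
      · exact h
      · exact balanced_of h2 hc b h
  have hm : T.edgeSet.ncard ∈ gracefulSizes T :=
    ⟨V, inferInstance, T, hT, hg, SimpleGraph.IsContained.refl T, rfl⟩
  exact ⟨hg, hm, le_antisymm (Nat.sInf_le hm) (le_of_mem (Nat.sInf_mem ⟨_, hm⟩))⟩

end Pool.Agent.Results.MP_128071_co.EvenLeaves
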