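import Pool.Agent.H276R3.GE
import Pool.Agent.H39R3.Attach

/-!
# The smallest graceful tree containing a given tree: trees with a vertex with few non-neighbours

Every finite tree `T` with `m` edges and a vertex `v` such that `t` vertices other than `v` are not
adjacent to `v` is graceful if `10^8 (t + 1)^2 log (t + 2) ≤ m`.  The starting result `NearStars` has the
condition `10^18 t ≤ m` in place of it, which is weaker for `t ≥ 10^9` and much stronger for small `t`: a
tree with `t = 100` is graceful here from `5 * 10^12` edges on, not only from `10^20` edges on.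

If the condition fails, then `T` with pendant edges attached at `v` is graceful as soon as the number of
all edges satisfies the condition; so `γ(T)` is at most the maximum of `m` and `10^8 (t + 1)^2 log (t + 2)`
(rounded up) for every tree `T`.
-/

set_option autoImplicit false

namespace Pool.Agent.Results.MP_128071_co.FewNonNeighbours

/-- A graph with `m` edges is graceful if there is an injective map `f` of the vertices to
`{0, 1, …, m}` such that the edge labels `|f u - f v|` are exactly `1, …, m`. -/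
def Graceful {V : Type} (T : SimpleGraph V) : Prop :=
  ∃ f : V → ℕ, Function.Injective f ∧ (∀ v, f v ≤ T.edgeSet.ncard) ∧
    {d : ℕ | ∃ u v : V, T.Adj u v ∧ d = Int.natAbs ((f u : ℤ) - (f v : ℤ))} =
      Set.Icc 1 T.edgeSet.ncard

/-- The numbers of edges of the finite graceful trees which have a subgraph isomorphic to `T`. -/
def gracefulSizes {V : Type} (T : SimpleGraph V) : Set ℕ :=
  {k | ∃ (W : Type) (_ : Fintype W) (T' : SimpleGraph W),
    T'.IsTree ∧ Graceful T' ∧ T.IsContained T' ∧ T'.edgeSet.ncard = k}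

/-- `γ(T)`: the least number of edges of a graceful tree which has a subgraph isomorphic to `T`. -/
noncomputable def gamma {V : Type} (T : SimpleGraph V) : ℕ := sInf (gracefulSizes T)

theorem le_of_mem {V : Type} {T : SimpleGraph V} {k : ℕ}
    (hk : k ∈ gracefulSizes T) : T.edgeSet.ncard ≤ k := by
  classical
  obtain ⟨W, _, T', _, _, ⟨φ⟩, rfl⟩ := hk
  have hinj : Function.Injective φ := φ.injective
  have h1 : Sym2.map φ '' T.edgeSet ⊆ T'.edgeSet := by
    rintro _ ⟨e, he, rfl⟩
    induction e using Sym2.ind with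
    | _ x y =>
      rw [Sym2.map_mk, SimpleGraph.mem_edgeSet]
      exact φ.toHom.map_adj ((SimpleGraph.mem_edgeSet T).1 he)
  calc T.edgeSet.ncard = (Sym2.map φ '' T.edgeSet).ncard :=
        (Set.ncard_image_of_injective _ (Sym2.map.injective hinj)).symm
    _ ≤ T'.edgeSet.ncard := Set.ncard_le_ncard h1 (Set.toFinite _)

open Pool.Agent.H39R3 (attach attach_isTree_card)

/-- Attaching pendant edges at `v` does not change the number of the non-neighbours of `v`. -/
theorem nonnbrs_attach {V : Type} (T : SimpleGraph V) (v : V) (l : ℕ) :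
    {x | x ≠ Sum.inl v ∧ ¬ (attach T v l 0).Adj (Sum.inl v) x}.ncard =
      {x : V | x ≠ v ∧ ¬ T.Adj v x}.ncard := by
  have h1 : {x | x ≠ Sum.inl v ∧ ¬ (attach T v l 0).Adj (Sum.inl v) x} =
      Sum.inl '' {x : V | x ≠ v ∧ ¬ T.Adj v x} := by
    ext x
    rcases x with x | x | x | x
    · constructor
      · rintro ⟨h, h'⟩
        exact ⟨x, ⟨fun e => h (by rw [e]), h'⟩, rfl⟩
      · rintro ⟨y, ⟨h, h'⟩, e⟩
        obtain rfl := Sum.inl_injective e
        exact ⟨fun e => h (Sum.inl_injective e), h'⟩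
    · constructor
      · rintro ⟨-, h'⟩
        exact absurd (show v = v from rfl) h'
      · rintro ⟨y, -, e⟩
        cases e
    · exact x.elim0
    · exact x.elim0
  rw [h1, Set.ncard_image_of_injective _ Sum.inl_injective]

/-- Let `T` be a finite tree with `m` edges, `v` a vertex and `t` the number of the vertices other than
`v` which are not adjacent to `v`.

* If `10^8 (t + 1)^2 log (t + 2) ≤ m`, then `T` is graceful and `γ(T) = |E(T)|`: `T` is a smallest graceful
  tree containing `T`.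
* For every `l` with `10^8 (t + 1)^2 log (t + 2) ≤ m + l` the tree `T` with `l` pendant edges attached at `v`
  is graceful (it has `m + l` edges).
* `γ(T)` is attained, `γ(T) ≥ m`, and `γ(T)` is at most the maximum of `m` and
  `10^8 (t + 1)^2 log (t + 2)`, rounded up. -/
theorem result (V : Type) [Fintype V] (T : SimpleGraph V) (hT : T.IsTree) (v : V) (t : ℕ)
    (ht : {x : V | x ≠ v ∧ ¬ T.Adj v x}.ncard = t) :
    ((10 : ℝ) ^ 8 * ((t : ℝ) + 1) ^ 2 * Real.log ((t : ℝ) + 2) ≤ (T.edgeSet.ncard : ℝ) →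
      Graceful T ∧ T.edgeSet.ncard ∈ gracefulSizes T ∧ gamma T = T.edgeSet.ncard) ∧
    (∀ l : ℕ, (10 : ℝ) ^ 8 * ((t : ℝ) + 1) ^ 2 * Real.log ((t : ℝ) + 2) ≤ (T.edgeSet.ncard + l : ℕ) →
      (attach T v l 0).IsTree ∧ (attach T v l 0).edgeSet.ncard = T.edgeSet.ncard + l ∧
      Graceful (attach T v l 0)) ∧
    gamma T ∈ gracefulSizes T ∧ T.edgeSet.ncard ≤ gamma T ∧
    gamma T ≤ max T.edgeSet.ncard ⌈(10 : ℝ) ^ 8 * ((t : ℝ) + 1) ^ 2 * Real.log ((t : ℝ) + 2)⌉₊ := by
  have hat : ∀ l : ℕ, (10 : ℝ) ^ 8 * ((t : ℝ) + 1) ^ 2 * Real.log ((t : ℝ) + 2) ≤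
      (T.edgeSet.ncard + l : ℕ) →
      (attach T v l 0).IsTree ∧ (attach T v l 0).edgeSet.ncard = T.edgeSet.ncard + l ∧
      Graceful (attach T v l 0) := by
    intro l hl
    obtain ⟨h6, h7⟩ := attach_isTree_card (v := v) (a := l) (b := 0) hT
    have h8 : (attach T v l 0).edgeSet.ncard = T.edgeSet.ncard + l := by omega
    refine ⟨h6, h8, Pool.Agent.H276R3.GE.main (attach T v l 0) h6 (Sum.inl v) t ?_ ?_⟩
    · rw [nonnbrs_attach, ht]
    · rw [h8]; exact hl
  obtain ⟨N, hN⟩ : ∃ N, N = ⌈(10 : ℝ) ^ 8 * ((t : ℝ) + 1) ^ 2 * Real.log ((t : ℝ) + 2)⌉₊ := ⟨_, rfl⟩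
  have hmem : T.edgeSet.ncard + (N - T.edgeSet.ncard) ∈ gracefulSizes T := by
    obtain ⟨h1, h2, h3⟩ := hat (N - T.edgeSet.ncard) (by
      have h4 : N ≤ T.edgeSet.ncard + (N - T.edgeSet.ncard) := by omega
      refine (Nat.le_ceil _).trans ?_
      rw [← hN]
      exact_mod_cast h4)
    exact ⟨_, inferInstance, attach T v (N - T.edgeSet.ncard) 0, h1, h3,
      ⟨SimpleGraph.Hom.toCopy ⟨Sum.inl, fun {a b} h => h⟩ Sum.inl_injective⟩, h2⟩
  have hg : gamma T ∈ gracefulSizes T := Nat.sInf_mem ⟨_, hmem⟩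
  refine ⟨fun h => ?_, hat, hg, le_of_mem hg, ?_⟩
  · have hg : Graceful T := Pool.Agent.H276R3.GE.main T hT v t ht.le h
    have hm : T.edgeSet.ncard ∈ gracefulSizes T :=
      ⟨V, inferInstance, T, hT, hg, SimpleGraph.IsContained.refl T, rfl⟩
    exact ⟨hg, hm, le_antisymm (Nat.sInf_le hm) (le_of_mem (Nat.sInf_mem ⟨_, hm⟩))⟩
  · rw [← hN]
    refine (Nat.sInf_le hmem).trans ?_
    omega

end Pool.Agent.Results.MP_128071_co.FewNonNeighbours
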